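import Pool.Agent.H16.GZ.Targets4

/-!
# MP_52e316_nt, module DYM: measurability of `DY`
-/

set_option autoImplicit false

namespace Pool.Agent.H68.GZ

open MeasureTheory Pool.Agent.H34.GM Pool.Agent.H34.GZ

/-- left multiplication by an integer matrix -/
noncomputable def lm {m : ℕ} (γ : ZM m) (z : V m) : V m := fun i j => (cR γ * mt z) i j

theorem mt_lm {m : ℕ} (γ : ZM m) (z : V m) : mt (lm γ z) = cR γ * mt z := rfl

theorem lm_meas {m : ℕ} (γ : ZM m) : Measurable (lm γ : V m → V m) := by
  refine Continuous.measurable ?_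
  refine continuous_pi fun i => continuous_pi fun j => ?_
  show Continuous fun z : V m => ∑ l, cR γ i l * z l j
  exact continuous_finsetSum _ fun l _ =>
    continuous_const.mul ((continuous_apply j).comp (continuous_apply l))

theorem pf_DYM (hG : T_GSU) : T_DYM := by
  intro m D hD Y
  obtain ⟨h1, h2, h3⟩ := hG
  haveI : Countable (ZM m) := inferInstanceAs (Countable (Fin m → Fin m → ℤ))
  have hset : DY D Y = D ∩ ⋂ γ : ZM m, ⋂ (_ : IsUnit γ), ⋂ i : Fin m, ⋂ j : Fin m,
      ⋂ (_ : (i : ℕ) + 1 = j),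
      ((lm γ ⁻¹' {z : V m | ∃ n k : Mat m, Sgl (mt z) n (gs (mt z)) k})ᶜ ∪
        {z | gs (mt (lm γ z)) j ≤ Y * gs (mt (lm γ z)) i}) := by
    ext z
    simp only [DY, Set.mem_ofPred_eq, Set.mem_inter_iff, Set.mem_iInter, Set.mem_union,
      Set.mem_compl_iff, Set.mem_preimage]
    refine and_congr_right fun _ => ⟨fun h γ hγ i j hij => ?_, fun h γ hγ n a k hs i j hij => ?_⟩
    · by_cases hS : ∃ n k : Mat m, Sgl (mt (lm γ z)) n (gs (mt (lm γ z))) k
      · obtain ⟨n, k, hs⟩ := hS
        exact Or.inr (h γ hγ n _ k hs i j hij)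
      · exact Or.inl hS
    · have ha : a = gs (mt (lm γ z)) := h1 m _ n a k hs
      subst ha
      rcases h γ hγ i j hij with h' | h'
      · exact absurd ⟨n, k, hs⟩ h'
      · exact h'
  rw [hset]
  refine hD.meas.inter (MeasurableSet.iInter fun γ => MeasurableSet.iInter fun _ =>
    MeasurableSet.iInter fun i => MeasurableSet.iInter fun j => MeasurableSet.iInter fun _ => ?_)
  refine ((lm_meas γ) (h3 m)).compl.union ?_
  have hg : Measurable fun z : V m => gs (mt (lm γ z)) := (h2 m).comp (lm_meas γ)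
  exact measurableSet_le ((measurable_pi_apply j).comp hg)
    (((measurable_pi_apply i).comp hg).const_mul Y)

end Pool.Agent.H68.GZ
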