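import Pool.Agent.H16.GZ.Targets4
import Pool.Agent.H23.GZ.Targets5

/-!
# The fourth moment of the L-functions of the cusp forms of GL(m) over the rationals, principal level
q, spherical at infinity, at Lindelöf strength, for every m and every q (MP_52e316_nt)

The cusp forms of principal level `q` on `GL_m`, spherical at infinity, are the functions on
`GL_m(ℤ) \ (GL_m(ℝ) × GL_m(ℤ/q))` invariant under the orthogonal group and the positive scalars, which
are eigenfunctions of the Hecke operators prime to `q` and of the test functions at infinity, cuspidal,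
and here also primitive at `q` (all Fourier coefficients of `F(g, ·)` at the non-units of `M_m(ℤ/q)`
vanish). They number about `q ^ (m²)` and their conductor is `q ^ m` (for bounded parameters). The
theorem bounds the fourth moment of their L-functions, at points of the critical line which may depend
on the form, by `q ^ (m² + ε)`.

Idea of the proof. The operator on functions on `D × GL_m(ℤ/q)` whose kernel is the sum of
`Φ(a(h) h⁻¹ α g / (a(α) a(g)))` over the integer matrices `α` with a given class modulo `q` and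
`y / 2 < |det α| ≤ y` has every form as an eigenfunction, and its eigenvalue is the sum of
`n ^ ((m-1)/2) λ(n)` over `y / 2 < n ≤ y` prime to `q` up to a factor which is bounded below. By
Bessel's inequality the fourth moment of these eigenvalues is at most the Hilbert-Schmidt norm of the
square of the operator, restricted to the part `D_Y` of the fundamental domain where all gaps of the
lattice are at most `Y = q P^A`, which contains half of the mass of every cusp form. This norm is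
bounded by a count of quadruples of integer matrices: an average of the square of the number of the
lattices between `ℤ^m γ` and `ℤ^m` over skew boxes. Its loss in the cusp is the product of the ratios
`a_j / a_i`, `i < j`, of the Siegel coordinates, which is exactly compensated by the Haar measure. The
functional equation comes from Poisson summation over `M_m(ℤ)`; the dual half is turned into the
conjugate of the direct one by an adjointness argument. There is no Kuznetsov formula, no large sieve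
inequality and no bound towards the Ramanujan conjecture in the proof.
-/

set_option autoImplicit false

namespace Pool.Agent.H68.GZ.ResDraft

open MeasureTheory

/-- real `m × m` matrices -/
abbrev Mat (m : ℕ) := Matrix (Fin m) (Fin m) ℝ

/-- the same space, with Lebesgue measure and the maximum norm -/
abbrev V (m : ℕ) := Fin m → Fin m → ℝ

/-- integer `m × m` matrices -/
abbrev ZM (m : ℕ) := Matrix (Fin m) (Fin m) ℤ

/-- `m × m` matrices modulo `q` -/
abbrev RM (m q : ℕ) := Matrix (Fin m) (Fin m) (ZMod q)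

/-- the matrix of a point of `V m` -/
abbrev mt {m : ℕ} (z : V m) : Mat m := Matrix.of z

/-- the maximum of the absolute values of the entries -/
noncomputable def sz {m : ℕ} (z : Mat m) : ℝ := ‖((fun i j => z i j) : V m)‖

/-- the integer matrix `α` as a real matrix -/
noncomputable def toReal {m : ℕ} (α : ZM m) : Mat m := α.map (fun n : ℤ => (n : ℝ))

/-- the reduction of the integer matrix `α` modulo `q` -/
def red {m : ℕ} (q : ℕ) (α : ZM m) : RM m q := α.map (fun n : ℤ => (n : ZMod q))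

/-- `|det z| ^ (1 / m)` -/
noncomputable def aN {m : ℕ} (z : Mat m) : ℝ := |z.det| ^ (1 / (m : ℝ))

/-- the Haar measure `|det z| ^ (-m) dz` of `GL_m(ℝ)` -/
noncomputable def hm (m : ℕ) : Measure (V m) :=
  (volume : Measure (V m)).withDensity (fun z => ENNReal.ofReal ((|(mt z).det| ^ m)⁻¹))

/-- the leading principal minors of `zᵀ z` -/
noncomputable def mnr {m : ℕ} (z : Mat m) (j : ℕ) : ℝ :=
  if h : j ≤ m then ((z.transpose * z).submatrix (Fin.castLE h) (Fin.castLE h)).det else 0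

/-- the power function `∏_j a_j ^ (-μ_j + (2j - m - 1) / 2)` of `z = k a`, `k` orthogonal, `a` upper
triangular with positive diagonal `a_1, …, a_m`: `a_1² ⋯ a_j²` is the minor `mnr z j`. With this
normalisation the integral of `exp (-π ∑ z_ij²) |det z| ^ (s + (m - 1) / 2)` times the power function
is `∏_j Γ_ℝ(s - μ_j)` up to a constant. -/
noncomputable def pw {m : ℕ} (mu : Fin m → ℂ) (z : Mat m) : ℂ :=
  ∏ j : Fin m, ((mnr z ((j : ℕ) + 1) / mnr z (j : ℕ) : ℝ) : ℂ) ^
    ((-(mu j) + (2 * ((j : ℕ) + 1 : ℂ) - m - 1) / 2) / 2)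

/-- `T n` is a set of representatives of the classes `GL_m(ℤ) α` of the integer matrices `α` with
`|det α| = n` -/
structure IsReps (m : ℕ) (T : ℕ → Finset (ZM m)) : Prop where
  mem : ∀ n : ℕ, 1 ≤ n → ∀ α ∈ T n, α.det.natAbs = n
  uniq : ∀ n : ℕ, 1 ≤ n → ∀ β : ZM m, β.det.natAbs = n →
    ∃! α, α ∈ T n ∧ ∃ γ : ZM m, IsUnit γ ∧ β = γ * α

/-- `D` is a fundamental domain of `GL_m(ℤ)` (acting from the left) on the shell
`1 ≤ |det z| ^ (1 / m) < e` -/
structure IsDomain (m : ℕ) (D : Set (V m)) : Prop where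
  meas : MeasurableSet D
  shell : ∀ z ∈ D, 1 ≤ aN (mt z) ∧ aN (mt z) < Real.exp 1
  fund : ∀ z : V m, 1 ≤ aN (mt z) → aN (mt z) < Real.exp 1 →
    ∃! γ : ZM m, IsUnit γ ∧ ((fun i j => (toReal γ * mt z) i j) : V m) ∈ D

/-- test functions: continuous, compactly supported in `GL_m(ℝ)`, bi-invariant under the orthogonal
group -/
structure IsTest (m : ℕ) (k : Mat m → ℂ) : Prop where
  cont : Continuous k
  supp : ∃ c : ℝ, 0 < c ∧ ∀ z, k z ≠ 0 → sz z ≤ c ∧ c⁻¹ ≤ |z.det|
  left : ∀ u : Mat m, u * u.transpose = 1 → ∀ z, k (u * z) = k z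
  right : ∀ u : Mat m, u * u.transpose = 1 → ∀ z, k (z * u) = k z

/-- the additive character `a ↦ e(tr a / q)` of `M_m(ℤ/q)` -/
noncomputable def psi {m : ℕ} (q : ℕ) (a : RM m q) : ℂ :=
  Complex.exp (2 * Real.pi * Complex.I * (((a.trace.val : ℝ) / q : ℝ) : ℂ))

/-- the block of the rows `≥ k` and the columns `< k` of `u` (rows and columns are numbered from `0`),
the other entries are `0` -/
noncomputable def block {m : ℕ} (k : ℕ) (u : V m) : Mat m :=
  Matrix.of fun i j => if (j : ℕ) < k ∧ k ≤ (i : ℕ) then u i j else 0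

/-- `F` is a cusp form of principal level `q`: a bounded function on
`GL_m(ℤ) \ (GL_m(ℝ) × GL_m(ℤ/q))`, invariant under `ℝ_{>0}` and under the orthogonal group, an
eigenfunction of the Hecke operators prime to `q` with the eigenvalues `n ^ ((m - 1) / 2) λ(n)` and of
the convolutions with test functions, with the parameters `μ_j` at infinity;
primitive at `q`: for every `g` the Fourier coefficients of `F g` at all non-units of `M_m(ℤ/q)` vanish;
cuspidal: for `0 < k < m` its integral over the unipotent group of the matrices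
`(1, 0; q u, 1)`, `u` a `(m - k) × k` matrix modulo `1`, vanishes at all `g`, `x` (`u` integral acts
trivially modulo `q`, and these are the unipotent radicals of the maximal parabolic subgroups; the
constant terms at the other cusps are these at other `g`, `x`) -/
structure IsCuspForm (m q : ℕ) [NeZero q] (T : ℕ → Finset (ZM m)) (F : Mat m → RM m q → ℂ)
    (lam : ℕ → ℂ) (mu : Fin m → ℂ) : Prop where
  cont : ∀ x, ContinuousOn (fun g => F g x) {g | g.det ≠ 0}
  supp : ∀ g x, ¬ IsUnit x → F g x = 0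
  auto : ∀ γ : ZM m, IsUnit γ → ∀ g x, g.det ≠ 0 → F (toReal γ * g) (red q γ * x) = F g x
  scal : ∀ r : ℝ, 0 < r → ∀ g x, g.det ≠ 0 → F (r • g) x = F g x
  orth : ∀ k : Mat m, k * k.transpose = 1 → ∀ g x, g.det ≠ 0 → F (g * k) x = F g x
  hecke : ∀ n : ℕ, 1 ≤ n → n.Coprime q → ∀ g x, g.det ≠ 0 →
    ∑ α ∈ T n, F (toReal α * g) (red q α * x) = (n : ℂ) ^ (((m : ℂ) - 1) / 2) * lam n * F g x
  sum_mu : ∑ j, mu j = 0
  arch : ∀ k : Mat m → ℂ, IsTest m k → ∀ g x, g.det ≠ 0 →
    ∫ z, k (mt z) * F (g * (mt z)⁻¹) x ∂(hm m) = F g x * ∫ z, k (mt z) * pw mu (mt z) ∂(hm m)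
  bdd : ∃ B : ℝ, ∀ g x, g.det ≠ 0 → ‖F g x‖ ≤ B
  prim : ∀ a : RM m q, ¬ IsUnit a → ∀ g, g.det ≠ 0 → ∑ y, psi q (a * y) * F g y = 0
  cusp : ∀ k : ℕ, 0 < k → k < m → ∀ g x, g.det ≠ 0 →
    ∫ u in Set.Icc (0 : V m) 1, F ((1 + (q : ℝ) • block k u) * g) x = 0

/-- the `F i` are orthonormal in `L²(D × M_m(ℤ/q))` -/
def IsOrthonormal {m q : ℕ} [NeZero q] {S : Type} [DecidableEq S] (D : Set (V m))
    (F : S → Mat m → RM m q → ℂ) : Prop :=
  (∀ i j x, IntegrableOn (fun z => F i (mt z) x * (starRingEnd ℂ) (F j (mt z) x)) D (hm m)) ∧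
  ∀ i j, ∑ x : RM m q, ∫ z in D, F i (mt z) x * (starRingEnd ℂ) (F j (mt z) x) ∂(hm m) =
    if i = j then 1 else 0

/-- `L` is the L-function `∑_{(n,q)=1} λ(n) n ^ (-s)`, and it is entire -/
def IsLFunction (m q : ℕ) (lam : ℕ → ℂ) (L : ℂ → ℂ) : Prop :=
  Differentiable ℂ L ∧ ∀ s : ℂ, (m : ℝ) + 2 < s.re →
    HasSum (fun n : ℕ => if 1 ≤ n ∧ n.Coprime q then lam n * (n : ℂ) ^ (-s) else 0) (L s)

/-- the size `1 + |t| + ∑ |μ_j|` -/
noncomputable def size {m : ℕ} (t : ℝ) (mu : Fin m → ℂ) : ℝ := 1 + |t| + ∑ j, ‖mu j‖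

section conversions

variable {m q : ℕ}

lemma cv_reps {T : ℕ → Finset (ZM m)} (h : IsReps m T) : Pool.Agent.H34.GZ.RepsZ m T :=
  ⟨h.mem, h.uniq⟩

lemma cv_dom {D : Set (V m)} (h : IsDomain m D) : Pool.Agent.H34.GZ.DomZ m D :=
  ⟨h.meas, h.shell, h.fund⟩

lemma cv_tst {k : Mat m → ℂ} (h : Pool.Agent.H34.GM.Tst m k) : IsTest m k :=
  ⟨h.cont, h.supp, h.left, h.right⟩

lemma cv_form [NeZero q] {T : ℕ → Finset (ZM m)} {F : Mat m → RM m q → ℂ} {lam : ℕ → ℂ}
    {mu : Fin m → ℂ} (h : IsCuspForm m q T F lam mu) :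
    Pool.Agent.H34.GZ.CuspZ m q T F lam mu where
  cont := h.cont
  supp := h.supp
  auto := h.auto
  scal := h.scal
  orth := h.orth
  hecke := h.hecke
  tr0 := h.sum_mu
  arch := fun k hk => h.arch k (cv_tst hk)
  bdd := h.bdd
  prim := h.prim
  cusp := h.cusp

/-- an orthonormal form is not identically zero -/
lemma cv_nz [NeZero q] {S : Type} [DecidableEq S] {D : Set (V m)} (hD : IsDomain m D)
    (hm1 : 1 ≤ m) {F : S → Mat m → RM m q → ℂ} (h : IsOrthonormal D F) (i : S) :
    Pool.Agent.H34.GM.NZ (F i) := by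
  by_contra hc
  have h0 : ∀ g : Mat m, g.det ≠ 0 → ∀ x, F i g x = 0 := by
    intro g hg x
    by_contra hx
    exact hc ⟨g, x, hg, hx⟩
  have h1 := h.2 i i
  rw [if_pos rfl] at h1
  have h2 : ∑ x : RM m q, ∫ z in D, F i (mt z) x * (starRingEnd ℂ) (F i (mt z) x) ∂(hm m) = 0 := by
    refine Finset.sum_eq_zero (fun x _ => ?_)
    refine setIntegral_eq_zero_of_forall_eq_zero (fun z hz => ?_)
    have hz1 := (hD.shell z hz).1
    have hdet : (mt z).det ≠ 0 := by
      intro h0
      unfold aN at hz1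
      rw [h0, abs_zero, Real.zero_rpow (by positivity)] at hz1
      linarith
    rw [h0 _ hdet x, zero_mul]
  rw [h2] at h1
  exact zero_ne_one h1

end conversions

theorem result
    (h_MOZ : Pool.Agent.H34.GZ.T_MOZ (fun m => ((m : ℝ) - 1) / 2))
    (h_EXT : Pool.Agent.H34.GZ.T_EXT) (h_EXD : Pool.Agent.H34.GZ.T_EXD)
    (h_APB : Pool.Agent.H34.GZ.T_APB) :
    ∀ m : ℕ, 1 ≤ m →
    (∃ (T : ℕ → Finset (ZM m)) (D : Set (V m)), IsReps m T ∧ IsDomain m D) ∧
    ∀ ε : ℝ, 0 < ε → ∃ C A : ℝ, 0 < C ∧ 0 < A ∧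
      ∀ (q : ℕ) [NeZero q], 2 ≤ q → ∀ (T : ℕ → Finset (ZM m)) (D : Set (V m)),
        IsReps m T → IsDomain m D →
      ∀ (S : Type) [Fintype S] [DecidableEq S] (F : S → Mat m → RM m q → ℂ) (lam : S → ℕ → ℂ)
        (mu : S → Fin m → ℂ), (∀ i, IsCuspForm m q T (F i) (lam i) (mu i)) →
        IsOrthonormal D F →
      ∃ L : S → ℂ → ℂ, (∀ i, IsLFunction m q (lam i) (L i)) ∧
        (∀ t : S → ℝ, ∑ i, (‖L i (1 / 2 + t i * Complex.I)‖ * size (t i) (mu i) ^ (-A)) ^ 4 ≤
          C * (q : ℝ) ^ ((m : ℝ) ^ 2 + ε)) ∧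
        ∀ η : ℝ, (∀ i, ∃ t : ℝ, size t (mu i) ^ A * (q : ℝ) ^ η <
          ‖L i (1 / 2 + t * Complex.I)‖) →
          (Fintype.card S : ℝ) ≤ C * (q : ℝ) ^ ((m : ℝ) ^ 2 - 4 * η + ε) := by
  intro m hm1
  refine ⟨?_, ?_⟩
  · obtain ⟨T, hT⟩ := h_EXT m hm1
    obtain ⟨D, hD⟩ := h_EXD m hm1
    exact ⟨T, D, ⟨hT.mem, hT.uniq⟩, ⟨hD.meas, hD.shell, hD.fund⟩⟩
  · intro ε hε
    obtain ⟨C, A, hC, hA, h⟩ := h_MOZ m hm1 ε hε
    refine ⟨C, A, hC, hA, ?_⟩
    intro q _ hq2 T D hT hD S _ _ F lam mu hF hOr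
    obtain ⟨L, hL1, hL2⟩ := h q T D ⟨hm1, hq2, cv_reps hT, cv_dom hD⟩ S F lam mu
      (fun i => cv_form (hF i))
      (fun i j => h_APB m q T (F i) (lam i) (mu i) hm1 (cv_form (hF i)).toEigZ
        (cv_nz hD hm1 hOr i) j) hOr
    refine ⟨L, hL1, hL2, ?_⟩
    intro η hη
    choose t ht using hη
    have hq0 : (0 : ℝ) < q := by positivity
    have h1 := hL2 t
    have h2 : ∀ i, (q : ℝ) ^ (4 * η) ≤
        (‖L i (1 / 2 + t i * Complex.I)‖ * size (t i) (mu i) ^ (-A)) ^ 4 := by
      intro i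
      have hs : 0 < size (t i) (mu i) := by
        unfold size
        have e1 := abs_nonneg (t i)
        have e2 : 0 ≤ ∑ j, ‖mu i j‖ := Finset.sum_nonneg (fun j _ => norm_nonneg _)
        linarith
      have h3 : (q : ℝ) ^ η ≤ ‖L i (1 / 2 + t i * Complex.I)‖ * size (t i) (mu i) ^ (-A) := by
        rw [Real.rpow_neg hs.le, ← div_eq_mul_inv, le_div_iff₀ (Real.rpow_pos_of_pos hs _),
          mul_comm]
        exact (ht i).le
      have h4 : (q : ℝ) ^ (4 * η) = ((q : ℝ) ^ η) ^ 4 := by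
        rw [← Real.rpow_natCast, ← Real.rpow_mul hq0.le]
        congr 1
        push_cast
        ring
      rw [h4]
      exact pow_le_pow_left₀ (Real.rpow_nonneg hq0.le _) h3 4
    have h5 : (Fintype.card S : ℝ) * (q : ℝ) ^ (4 * η) ≤ C * (q : ℝ) ^ ((m : ℝ) ^ 2 + ε) := by
      calc (Fintype.card S : ℝ) * (q : ℝ) ^ (4 * η) = ∑ _i : S, (q : ℝ) ^ (4 * η) := by
            rw [Finset.sum_const, Finset.card_univ, nsmul_eq_mul]
        _ ≤ _ := Finset.sum_le_sum (fun i _ => h2 i)
        _ ≤ _ := h1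
    have h6 : (q : ℝ) ^ ((m : ℝ) ^ 2 - 4 * η + ε) =
        (q : ℝ) ^ ((m : ℝ) ^ 2 + ε) * ((q : ℝ) ^ (4 * η))⁻¹ := by
      rw [← Real.rpow_neg hq0.le, ← Real.rpow_add hq0]
      congr 1
      ring
    rw [h6, ← mul_assoc, ← div_eq_mul_inv, le_div_iff₀ (Real.rpow_pos_of_pos hq0 _)]
    exact h5

end Pool.Agent.H68.GZ.ResDraft
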